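import Pool.Agent.W951.BP.Stm

set_option autoImplicit false

/-! The middle binomial coefficient, and the number of nearly balanced words. -/

namespace Pool.Agent.W655.BP

open Pool.Agent.W951.BP Finset

lemma cb_sq (n : ℕ) : n.centralBinom ^ 2 * (3 * n + 1) ≤ 16 ^ n := by
  induction n with
  | zero => simp
  | succ n ih =>
    have h := Nat.succ_mul_centralBinom_succ n
    have h1 : (n + 1) ^ 2 * ((n + 1).centralBinom ^ 2 * (3 * (n + 1) + 1)) =
        4 * (2 * n + 1) ^ 2 * (3 * n + 4) * n.centralBinom ^ 2 := by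
      calc (n + 1) ^ 2 * ((n + 1).centralBinom ^ 2 * (3 * (n + 1) + 1)) =
          ((n + 1) * (n + 1).centralBinom) ^ 2 * (3 * n + 4) := by ring
        _ = _ := by rw [h]; ring
    have h2 : 4 * (2 * n + 1) ^ 2 * (3 * n + 4) ≤ 16 * (n + 1) ^ 2 * (3 * n + 1) := by nlinarith
    have h3 : (n + 1) ^ 2 * ((n + 1).centralBinom ^ 2 * (3 * (n + 1) + 1)) ≤
        (n + 1) ^ 2 * 16 ^ (n + 1) := by
      rw [h1]
      calc 4 * (2 * n + 1) ^ 2 * (3 * n + 4) * n.centralBinom ^ 2
          ≤ 16 * (n + 1) ^ 2 * (3 * n + 1) * n.centralBinom ^ 2 := Nat.mul_le_mul_right _ h2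
        _ = 16 * (n + 1) ^ 2 * (n.centralBinom ^ 2 * (3 * n + 1)) := by ring
        _ ≤ 16 * (n + 1) ^ 2 * 16 ^ n := Nat.mul_le_mul_left _ ih
        _ = (n + 1) ^ 2 * 16 ^ (n + 1) := by ring
    exact Nat.le_of_mul_le_mul_left h3 (by positivity)

lemma cb_succ (j : ℕ) : (j + 1).centralBinom = 2 * (2 * j + 1).choose j := by
  have h : 2 * j + 1 = j + 1 + j := by ring
  rw [h, Nat.centralBinom_eq_two_mul_choose, two_mul, ← add_assoc,
    Nat.choose_succ_succ' (j + 1 + j) j, Nat.choose_symm_add, ← two_mul]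

lemma card_wt {m : ℕ} (a : ℕ) : (univ.filter fun u : Fin m → Bool => wt u = a).card ≤ m.choose a := by
  classical
  have h : (powersetCard a (univ : Finset (Fin m))).card = m.choose a := by
    rw [card_powersetCard, card_univ, Fintype.card_fin]
  rw [← h]
  refine card_le_card_of_injOn (fun u => univ.filter fun j => u j = true) ?_ ?_
  · intro u hu
    simp only [coe_filter, mem_univ, true_and, Set.mem_ofPred_eq] at hu
    simp only [mem_coe, mem_powersetCard, subset_univ, true_and]
    exact hu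
  · intro u _ u' _ h
    funext i
    have h1 : i ∈ (univ.filter fun j => u j = true) ↔ i ∈ (univ.filter fun j => u' j = true) := by
      simp only at h
      rw [h]
    simp only [mem_filter, mem_univ, true_and] at h1
    exact Bool.eq_iff_iff.2 h1

theorem t_BIN : S_BIN := by
  classical
  constructor
  · intro j
    have h := cb_sq (j + 1)
    rw [cb_succ] at h
    have h1 : ((2 * j + 1).choose j) ^ 2 * (2 * j + 1) ≤ (2 ^ (2 * j + 1)) ^ 2 := by
      have h2 : (2 ^ (2 * j + 1)) ^ 2 * 4 = 16 ^ (j + 1) := by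
        rw [← pow_mul, show (16:ℕ) = 2 ^ 4 by norm_num, ← pow_mul, show (4:ℕ) = 2 ^ 2 by norm_num,
          ← pow_add]
        congr 1
        ring
      have h3 : ((2 * j + 1).choose j) ^ 2 * (2 * j + 1) * 4 ≤
          (2 * (2 * j + 1).choose j) ^ 2 * (3 * (j + 1) + 1) := by nlinarith [sq_nonneg ((2 * j + 1).choose j)]
      omega
    have h4 : (((2 * j + 1).choose j : ℝ)) ^ 2 * (2 * j + 1) ≤ ((2:ℝ) ^ (2 * j + 1)) ^ 2 := by
      exact_mod_cast h1
    have h5 : (0:ℝ) ≤ 2 * j + 1 := by positivity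
    refine le_of_sq_le_sq ?_ (by positivity)
    rw [mul_pow, Real.sq_sqrt h5]
    exact h4
  · intro j t
    have h1 : (univ.filter fun u : Fin (2 * j + 1) → Bool =>
        2 * j + 1 < 2 * wt u + t ∧ 2 * wt u < 2 * j + 1 + t) ⊆
        (Icc (j + 1 - t / 2) (j + t / 2)).biUnion
          (fun a => univ.filter fun u : Fin (2 * j + 1) → Bool => wt u = a) := by
      intro u hu
      rw [mem_filter] at hu
      rw [mem_biUnion]
      refine ⟨wt u, mem_Icc.2 ?_, ?_⟩
      · omega
      · simp
    refine (card_le_card h1).trans (card_biUnion_le.trans ?_)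
    refine (sum_le_card_nsmul _ _ ((2 * j + 1).choose j) fun a _ => ?_).trans ?_
    · refine (card_wt a).trans ?_
      have h2 := Nat.choose_le_middle a (2 * j + 1)
      rwa [show (2 * j + 1) / 2 = j by omega] at h2
    · rw [smul_eq_mul]
      refine Nat.mul_le_mul_right _ ?_
      rw [Nat.card_Icc]
      omega

end Pool.Agent.W655.BP
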